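import Mathlib
import Pool.Agent.H16.BTen

set_option autoImplicit false

namespace Pool.Agent.Results.MP_9e9eb1_al.Both

open Pool.Agent.H16.BTen

theorem result :
    (∃ A : Tensor 2 2, Symm A ∧ B0 A ∧ ∀ l : ℝ, ¬ HEig A l) ∧
    (∀ (k n : ℕ), Even k → ∀ B : Tensor k n, B0 B → ∀ l : ℝ, HEig B l → 0 ≤ l) :=
  ⟨⟨A, q1⟩, fun _ _ hk B hB l h => q2 hk B hB l h⟩

end Pool.Agent.Results.MP_9e9eb1_al.Both
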